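import Pool.Agent.W982.TA.Stm2

/-! # Project TA (helper982), part S7: soundness of `check` -/

set_option autoImplicit false

namespace Pool.Agent.W982.TA

theorem s7_set (E : ℕ → Pt) (D : List ℕ) (i x : ℕ)
    (h : ∀ t < D.length, ∃ k < 48, (D.getD t 0).testBit k = true ∧ HasT k (E t))
    (hx : ∃ k < 48, x.testBit k = true ∧ HasT k (E i)) :
    ∀ t < (D.set i x).length, ∃ k < 48, ((D.set i x).getD t 0).testBit k = true ∧ HasT k (E t) := by
  intro t ht
  rw [List.length_set] at ht
  by_cases hti : t = i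
  · subst hti
    have e : (D.set t x).getD t 0 = x := by
      rw [List.getD_eq_getElem _ _ (by rw [List.length_set]; exact ht), List.getElem_set_self]
    rw [e]
    exact hx
  · have e : (D.set i x).getD t 0 = D.getD t 0 := by
      rw [List.getD_eq_getElem _ _ (by rw [List.length_set]; exact ht),
        List.getD_eq_getElem _ _ ht, List.getElem_set_ne (fun h => hti h.symm)]
    rw [e]
    exact h t ht

theorem s7 (h5 : TaskS5) (h6 : TaskS6) : TaskS7 := by
  intro X Y M e o cs D cert hM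
  induction cert generalizing D with
  | rm i j m c ih =>
    intro hcs hD hchk
    simp only [check, Bool.and_eq_true, decide_eq_true_eq] at hchk
    obtain ⟨⟨⟨hrm, hi⟩, hj⟩, hc⟩ := hchk
    refine ih (D.set i (Nat.ldiff (D.getD i 0) m)) (fun t ht => hcs t (by
      rw [List.length_set] at ht; exact ht))
      (s7_set (fun t => e (o + cs.getD t (0, 0))) D i _ hD ?_) hc
    obtain ⟨k, hk, hk1, hk2⟩ := hD i hi
    refine ⟨k, hk, ?_, hk2⟩
    rw [Nat.testBit_ldiff, hk1, Bool.true_and, Bool.not_eq_true']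
    by_contra hmk
    rw [Bool.not_eq_false] at hmk
    obtain ⟨l, hl, hl1, hl2⟩ := hD j hj
    unfold rmOK at hrm
    rw [List.all_eq_true] at hrm
    have h1 := hrm k (List.mem_range.mpr hk)
    rw [hmk, Bool.not_true, Bool.false_or, List.all_eq_true] at h1
    have h2 := h1 l (List.mem_range.mpr hl)
    rw [hl1, Bool.not_true, Bool.false_or] at h2
    have h3 := h5 o _ _ k l _ _ hk2 hl2 h2
    by_cases hq : o + cs.getD i (0, 0) = o + cs.getD j (0, 0)
    · rw [hq] at h3
      have h4 := h3.1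
      unfold dt at h4
      simp only [sub_self, mul_zero, zero_mul, lt_irrefl] at h4
    · exact hM.disj _ (hcs i hi) _ (hcs j hj) hq h3
  | tri i k j l m n c ih =>
    intro hcs hD hchk
    simp only [check, Bool.and_eq_true, decide_eq_true_eq] at hchk
    obtain ⟨⟨⟨⟨⟨⟨⟨⟨⟨hk, hl⟩, hn⟩, hi⟩, hj⟩, hm⟩, hDj⟩, hDm⟩, htri⟩, hc⟩ := hchk
    refine ih (D.set i (Nat.ldiff (D.getD i 0) (2 ^ k))) (fun t ht => hcs t (by
      rw [List.length_set] at ht; exact ht))
      (s7_set (fun t => e (o + cs.getD t (0, 0))) D i _ hD ?_) hc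
    obtain ⟨k', hk', hk1, hk2⟩ := hD i hi
    refine ⟨k', hk', ?_, hk2⟩
    rw [Nat.testBit_ldiff, hk1, Bool.true_and, Bool.not_eq_true', Nat.testBit_two_pow]
    by_contra hkk
    rw [Bool.not_eq_false, decide_eq_true_eq] at hkk
    subst hkk
    obtain ⟨l', -, hl1, hl2⟩ := hD j hj
    rw [hDj, Nat.testBit_two_pow, decide_eq_true_eq] at hl1
    subst hl1
    obtain ⟨n', -, hn1, hn2⟩ := hD m hm
    rw [hDm, Nat.testBit_two_pow, decide_eq_true_eq] at hn1
    subst hn1
    unfold HasT at hk2 hl2 hn2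
    rw [if_pos hk] at hk2
    rw [if_pos hl] at hl2
    rw [if_pos hn] at hn2
    obtain ⟨a, b, c', e1, e2, e3, e4⟩ := h6 o _ _ _ _ _ _ htri
    rw [← hk2] at e1
    rw [← hl2] at e2
    rw [← hn2] at e3
    exact hM.notri _ (hcs i hi) _ (hcs j hj) _ (hcs m hm) a b c' e1 e2 e3 e4
  | split i m c₁ c₂ ih₁ ih₂ =>
    intro hcs hD hchk
    simp only [check, Bool.and_eq_true, decide_eq_true_eq] at hchk
    obtain ⟨⟨hi, hc1⟩, hc2⟩ := hchk
    obtain ⟨k, hk, hk1, hk2⟩ := hD i hi
    cases hmk : m.testBit k with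
    | true =>
      refine ih₁ (D.set i (Nat.land (D.getD i 0) m)) (fun t ht => hcs t (by
        rw [List.length_set] at ht; exact ht))
        (s7_set (fun t => e (o + cs.getD t (0, 0))) D i _ hD ⟨k, hk, ?_, hk2⟩) hc1
      have : (D.getD i 0 &&& m).testBit k = true := by
        rw [Nat.testBit_and, hk1, hmk, Bool.true_and]
      exact this
    | false =>
      refine ih₂ (D.set i (Nat.ldiff (D.getD i 0) m)) (fun t ht => hcs t (by
        rw [List.length_set] at ht; exact ht))
        (s7_set (fun t => e (o + cs.getD t (0, 0))) D i _ hD ⟨k, hk, ?_, hk2⟩) hc2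
      rw [Nat.testBit_ldiff, hk1, hmk, Bool.not_false, Bool.true_and]
  | stop i =>
    intro hcs hD hchk
    simp only [check, Bool.and_eq_true, decide_eq_true_eq] at hchk
    obtain ⟨k, hk, hk1, -⟩ := hD i hchk.1
    rw [hchk.2, Nat.zero_testBit] at hk1
    exact absurd hk1 (by decide)

end Pool.Agent.W982.TA
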